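import Mathlib
import Pool.Agent.Helper18.RL.Goals

set_option autoImplicit false
set_option linter.unusedSectionVars false

/-!
RL-TCM (MP_0c2bb8_co): matchings in the side of a tight cut.
-/

namespace Pool.Agent.Helper27.RL

open Finset Pool.Agent.Helper37.RG3 Pool.Agent.Helper18.RL

/-- The matching of the side of a tight cut, without one end of a cut edge. -/
theorem gtcm (hCLS : G_CLS) : G_TCM := by
  intro V _ _ U Y w r hw hY hodd hct a' ha' x hx hax
  obtain ⟨k, σ, hk, hPM, hcount, hsum⟩ := hCLS V U w r hw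
  have h1 := hsum Y Yᶜ hY disjoint_compl_right
  have h2 : ∀ i, (Y.filter fun y => σ i y ∈ Yᶜ).card = cr (σ i) Y := by
    intro i
    unfold cr
    congr 1
    ext y
    simp
  have h3 : ∀ i, 1 ≤ cr (σ i) Y := by
    intro i
    have h4 := cr_parity hw (hPM i) hY
    obtain ⟨q, hq⟩ := hodd
    omega
  have h5 : ∑ i : Fin (k * r), cr (σ i) Y = ∑ _i : Fin (k * r), 1 := by
    rw [← Finset.sum_congr rfl (fun i _ => h2 i), h1]
    change k * ct w Y = _
    rw [hct]
    simp
  have h6 : ∀ i, cr (σ i) Y = 1 := by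
    intro i
    have := (Finset.sum_eq_sum_iff_of_le (fun i _ => h3 i)).mp h5.symm i (mem_univ i)
    exact this.symm
  have hne : a' ≠ x := fun h => hx (h ▸ ha')
  have h7 : (univ.filter fun i => σ i a' = x).Nonempty := by
    rw [← Finset.card_pos, hcount a' x hne]
    exact Nat.mul_pos hk (Nat.pos_of_ne_zero hax)
  obtain ⟨i, hi⟩ := h7
  rw [mem_filter] at hi
  have hia : σ i a' = x := hi.2
  have h8 := h6 i
  unfold cr at h8
  obtain ⟨z, hz⟩ := Finset.card_eq_one.mp h8
  have h9 : a' ∈ Y.filter fun y => σ i y ∉ Y := by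
    rw [mem_filter, hia]
    exact ⟨ha', hx⟩
  have h10 : a' = z := by
    rw [hz] at h9
    exact mem_singleton.mp h9
  subst h10
  refine ⟨σ i, ?_⟩
  intro v hv
  rw [mem_sdiff, mem_singleton] at hv
  have h11 : σ i v ∈ Y := by
    by_contra hcon
    have : v ∈ Y.filter fun y => σ i y ∉ Y := by
      rw [mem_filter]
      exact ⟨hv.1, hcon⟩
    rw [hz] at this
    exact hv.2 (mem_singleton.mp this)
  refine ⟨?_, (hPM i).invol v, (hPM i).adj v (hY hv.1)⟩
  rw [mem_sdiff, mem_singleton]
  refine ⟨h11, ?_⟩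
  intro h12
  have h13 := (hPM i).invol v
  rw [h12, hia] at h13
  exact hx (h13 ▸ hv.1)

end Pool.Agent.Helper27.RL
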